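import Mathlib
import Pool.Agent.Y509.CCyc.Norm
import Pool.Agent.Q201.CCReal
import Pool.Agent.Q201.CycSep

/-!
# On every non-zero separable Banach space there is a convex-cyclic operator whose square is not
convex-cyclic

Let `S` be a cyclic contraction whose range lies in the kernel of a non-zero functional `g`.  In the real
case `T = -100 + S` and in the complex case `T = 10 i + S` is convex-cyclic, while
`g (T ^ (2 n) y)` is `10000 ^ n g y` in the real case and `(-100) ^ n g y` in the complex case.
-/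

set_option autoImplicit false

open Filter Topology

namespace Pool.Agent.Results.MP_8292e8_an.SquareNotConvexCyclic

/-- `T` is convex-cyclic: for some vector `x` the convex hull of the orbit `x, T x, T² x, …` (the set of
its finite convex combinations, with real non-negative weights) is dense in `X`. -/
def ConvexCyclic {𝕜 X : Type*} [RCLike 𝕜] [NormedAddCommGroup X] [NormedSpace 𝕜 X] [Module ℝ X]
    (T : X →L[𝕜] X) : Prop :=
  ∃ x : X, Dense (convexHull ℝ (Set.range fun n : ℕ => (T ^ n) x))

theorem real_case (X : Type*) [NormedAddCommGroup X] [NormedSpace ℝ X] [CompleteSpace X]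
    [TopologicalSpace.SeparableSpace X] [Nontrivial X] :
    ∃ T : X →L[ℝ] X, ConvexCyclic T ∧ ¬ ConvexCyclic (T ^ 2) := by
  obtain ⟨S, x, g, hS, hcyc, hgx, hgS⟩ := Pool.Agent.Q201.CC.exists_cyclic_ker (𝕜 := ℝ) X
  refine ⟨Pool.Agent.Q201.CC.TT S, ⟨x, Pool.Agent.Q201.CC.cc_of_cyc hS x hcyc⟩, ?_⟩
  rintro ⟨y, hy⟩
  have h1 : ∀ v, g (Pool.Agent.Q201.CC.TT S v) = -100 * g v := by
    intro v
    change g ((-100 : ℝ) • v + S v) = _
    rw [map_add, map_smul, hgS, add_zero, smul_eq_mul]
  have h2 : ∀ n : ℕ, g (((Pool.Agent.Q201.CC.TT S ^ 2) ^ n) y) = 10000 ^ n * g y := by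
    intro n
    induction n with
    | zero => simp
    | succ n ih =>
      rw [pow_succ', mul_apply_eq_comp, pow_two,
        mul_apply_eq_comp, h1, h1, ← pow_two, ih]
      ring
  -- the closed convex set containing the orbit
  have h3 : ∀ v : X, 0 ≤ g v * g y := by
    have hcl : IsClosed {v : X | 0 ≤ g v * g y} :=
      isClosed_le continuous_const (g.continuous.mul continuous_const)
    have hcv : Convex ℝ {v : X | 0 ≤ g v * g y} := by
      intro a ha b hb s t hs ht _
      simp only [Set.mem_ofPred_eq, map_add, map_smul, smul_eq_mul] at ha hb ⊢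
      nlinarith [mul_nonneg hs ha, mul_nonneg ht hb]
    have hsub : convexHull ℝ (Set.range fun n : ℕ => ((Pool.Agent.Q201.CC.TT S ^ 2) ^ n) y) ⊆
        {v : X | 0 ≤ g v * g y} := by
      refine convexHull_min ?_ hcv
      rintro _ ⟨n, rfl⟩
      simp only [Set.mem_ofPred_eq, h2]
      have : (0 : ℝ) ≤ 10000 ^ n * (g y * g y) := mul_nonneg (by positivity) (mul_self_nonneg _)
      linarith
    intro v
    have h4 : v ∈ closure (convexHull ℝ (Set.range fun n : ℕ =>
      ((Pool.Agent.Q201.CC.TT S ^ 2) ^ n) y)) := hy v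
    exact hcl.closure_subset_iff.2 hsub h4
  have h4 : g y = 0 := by
    have h5 := h3 (-y)
    rw [map_neg] at h5
    nlinarith [mul_self_nonneg (g y)]
  have h5 : ∀ v : X, g v = 0 := by
    have hcl : IsClosed {v : X | g v = 0} := isClosed_eq g.continuous continuous_const
    have hcv : Convex ℝ {v : X | g v = 0} := by
      intro a ha b hb s t _ _ _
      simp only [Set.mem_ofPred_eq, map_add, map_smul] at ha hb ⊢
      rw [ha, hb, smul_zero, smul_zero, add_zero]
    have hsub : convexHull ℝ (Set.range fun n : ℕ => ((Pool.Agent.Q201.CC.TT S ^ 2) ^ n) y) ⊆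
        {v : X | g v = 0} := by
      refine convexHull_min ?_ hcv
      rintro _ ⟨n, rfl⟩
      simp only [Set.mem_ofPred_eq, h2, h4, mul_zero]
    intro v
    exact hcl.closure_subset_iff.2 hsub (hy v)
  exact hgx (h5 x)

theorem complex_case (X : Type*) [NormedAddCommGroup X] [NormedSpace ℂ X] [CompleteSpace X]
    [TopologicalSpace.SeparableSpace X] [Nontrivial X] :
    ∃ T : X →L[ℂ] X, ConvexCyclic T ∧ ¬ ConvexCyclic (T ^ 2) := by
  obtain ⟨S, x, g, hS, hcyc, hgx, hgS⟩ := Pool.Agent.Q201.CC.exists_cyclic_ker (𝕜 := ℂ) X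
  refine ⟨Pool.Agent.Y509.CCyc.TT S, ⟨x, Pool.Agent.Y509.CCyc.cc_of_cyc hS x hcyc⟩, ?_⟩
  rintro ⟨y, hy⟩
  have h1 : ∀ v, g (Pool.Agent.Y509.CCyc.TT S v) = (10 * Complex.I) * g v := by
    intro v
    change g ((10 * Complex.I) • v + S v) = _
    rw [map_add, map_smul, hgS, add_zero, smul_eq_mul]
  have h2 : ∀ n : ℕ, g (((Pool.Agent.Y509.CCyc.TT S ^ 2) ^ n) y) = ((-100 : ℝ) : ℂ) ^ n * g y := by
    intro n
    induction n with
    | zero => simp
    | succ n ih =>
      rw [pow_succ', mul_apply_eq_comp, pow_two,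
        mul_apply_eq_comp, h1, h1, ← pow_two, ih]
      push_cast
      have : Complex.I * Complex.I = -1 := Complex.I_mul_I
      linear_combination (100 * (-100) ^ n * g y) * this
  -- the closed real subspace containing the orbit
  have h3 : ∀ v : X, (g v * (starRingEnd ℂ) (g y)).im = 0 := by
    have hcl : IsClosed {v : X | (g v * (starRingEnd ℂ) (g y)).im = 0} :=
      isClosed_eq (Complex.continuous_im.comp (g.continuous.mul continuous_const)) continuous_const
    have hcv : Convex ℝ {v : X | (g v * (starRingEnd ℂ) (g y)).im = 0} := by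
      intro a ha b hb s t _ _ _
      simp only [Set.mem_ofPred_eq] at ha hb ⊢
      have e1 : g (s • a + t • b) = (s : ℂ) * g a + (t : ℂ) * g b := by
        rw [map_add, ← Complex.coe_smul, ← Complex.coe_smul, map_smul, map_smul, smul_eq_mul,
          smul_eq_mul]
      rw [e1, add_mul, mul_assoc, mul_assoc, Complex.add_im, Complex.im_ofReal_mul,
        Complex.im_ofReal_mul, ha, hb, mul_zero, mul_zero, add_zero]
    have hsub : convexHull ℝ (Set.range fun n : ℕ => ((Pool.Agent.Y509.CCyc.TT S ^ 2) ^ n) y) ⊆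
        {v : X | (g v * (starRingEnd ℂ) (g y)).im = 0} := by
      refine convexHull_min ?_ hcv
      rintro _ ⟨n, rfl⟩
      simp only [Set.mem_ofPred_eq, h2]
      rw [mul_assoc, Complex.mul_conj, ← Complex.ofReal_pow, ← Complex.ofReal_mul, Complex.ofReal_im]
    intro v
    exact hcl.closure_subset_iff.2 hsub (hy v)
  have h4 : g y = 0 := by
    have h5 := h3 (Complex.I • y)
    rw [map_smul, smul_eq_mul, mul_assoc, Complex.mul_conj, Complex.I_mul_im, Complex.ofReal_re] at h5
    exact Complex.normSq_eq_zero.1 h5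
  have h5 : ∀ v : X, g v = 0 := by
    have hcl : IsClosed {v : X | g v = 0} := isClosed_eq g.continuous continuous_const
    have hcv : Convex ℝ {v : X | g v = 0} := by
      intro a ha b hb s t _ _ _
      simp only [Set.mem_ofPred_eq] at ha hb ⊢
      rw [map_add, ← Complex.coe_smul, ← Complex.coe_smul, map_smul, map_smul, ha, hb, smul_zero,
        smul_zero, add_zero]
    have hsub : convexHull ℝ (Set.range fun n : ℕ => ((Pool.Agent.Y509.CCyc.TT S ^ 2) ^ n) y) ⊆
        {v : X | g v = 0} := by
      refine convexHull_min ?_ hcv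
      rintro _ ⟨n, rfl⟩
      simp only [Set.mem_ofPred_eq, h2, h4, mul_zero]
    intro v
    exact hcl.closure_subset_iff.2 hsub (hy v)
  exact hgx (h5 x)

/-- Every non-zero separable Banach space, real or complex, carries a convex-cyclic operator whose square
is not convex-cyclic. -/
theorem result :
    (∀ (X : Type*) [NormedAddCommGroup X] [NormedSpace ℝ X] [CompleteSpace X]
      [TopologicalSpace.SeparableSpace X] [Nontrivial X],
      ∃ T : X →L[ℝ] X, ConvexCyclic T ∧ ¬ ConvexCyclic (T ^ 2)) ∧
    (∀ (X : Type*) [NormedAddCommGroup X] [NormedSpace ℂ X] [CompleteSpace X]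
      [TopologicalSpace.SeparableSpace X] [Nontrivial X],
      ∃ T : X →L[ℂ] X, ConvexCyclic T ∧ ¬ ConvexCyclic (T ^ 2)) :=
  ⟨fun X _ _ _ _ _ => real_case X, fun X _ _ _ _ _ => complex_case X⟩

end Pool.Agent.Results.MP_8292e8_an.SquareNotConvexCyclic
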